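import Pool.Agent.E8helper19.LC.Stm

/-! Project LC, piece LC4 (S_FT). -/

set_option autoImplicit false
open MeasureTheory Filter Topology Set
open scoped Real

namespace Pool.Agent.E8helper55.LC

open Pool.Agent.E8helper19.LC (Gk pw S_FT)

noncomputable section

/-- the substitution -/
def fs (A B t : ℝ) : ℝ := B * √t - A / √t

theorem hasDeriv {A B t : ℝ} (ht : 0 < t) :
    HasDerivAt (fs A B) (B / (2 * √t) + A / (2 * t * √t)) t := by
  have hs : √t ≠ 0 := (Real.sqrt_pos.2 ht).ne'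
  have h1 := Real.hasDerivAt_sqrt ht.ne'
  have h2 := (h1.const_mul B).sub ((hasDerivAt_const t A).div h1 hs)
  refine h2.congr_deriv ?_
  rw [Real.sq_sqrt ht.le]
  field_simp
  ring

theorem fs_strict {A B : ℝ} (hA : 0 < A) (hB : 0 < B) : StrictMonoOn (fs A B) (Ioi 0) := by
  intro x hx y hy hxy
  have h1 : √x < √y := Real.sqrt_lt_sqrt (le_of_lt hx) hxy
  have h2 : 0 < √x := Real.sqrt_pos.2 hx
  have h3 : A / √y < A / √x := div_lt_div_of_pos_left hA h2 h1
  unfold fs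
  have h4 : B * √x < B * √y := mul_lt_mul_of_pos_left h1 hB
  linarith

theorem fs_image {A B : ℝ} (hA : 0 < A) (hB : 0 < B) : fs A B '' Ioi 0 = univ := by
  rw [eq_univ_iff_forall]
  intro z
  -- `B s² - z s - A = 0`
  set D := √(z ^ 2 + 4 * A * B) with hD
  have hAB : 0 < A * B := mul_pos hA hB
  have hDz : |z| < D := by
    rw [← Real.sqrt_sq_eq_abs]
    exact Real.sqrt_lt_sqrt (sq_nonneg z) (by nlinarith)
  have hDsq : D ^ 2 = z ^ 2 + 4 * A * B := Real.sq_sqrt (by positivity)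
  have hz := abs_lt.1 hDz
  set s := (z + D) / (2 * B) with hs
  have hs0 : 0 < s := div_pos (by linarith) (by linarith)
  refine ⟨s ^ 2, by show 0 < s ^ 2; positivity, ?_⟩
  unfold fs
  rw [Real.sqrt_sq hs0.le]
  have h1 : B * s ^ 2 - z * s - A = 0 := by
    rw [hs]
    field_simp
    nlinarith
  field_simp
  linarith

/-- the Gaussian in the new variable -/
def ph (A B t : ℝ) : ℝ := Real.exp (-(fs A B t) ^ 2)

theorem total {A B : ℝ} (hA : 0 < A) (hB : 0 < B) :
    IntegrableOn (fun t => (B / (2 * √t) + A / (2 * t * √t)) * ph A B t) (Ioi 0) ∧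
    ∫ t in Ioi (0 : ℝ), (B / (2 * √t) + A / (2 * t * √t)) * ph A B t = √π := by
  have hder : ∀ x ∈ Ioi (0 : ℝ), HasDerivWithinAt (fs A B)
      (B / (2 * √x) + A / (2 * x * √x)) (Ioi 0) x := fun x hx => (hasDeriv hx).hasDerivWithinAt
  have hinj := (fs_strict hA hB).injOn
  have hpos : ∀ x ∈ Ioi (0 : ℝ), |B / (2 * √x) + A / (2 * x * √x)| =
      B / (2 * √x) + A / (2 * x * √x) := by
    intro x hx
    have hx' : (0 : ℝ) < x := hx
    exact abs_of_nonneg (by positivity)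
  have h1 := integral_image_eq_integral_abs_deriv_smul measurableSet_Ioi hder hinj
    (fun z => Real.exp (-1 * z ^ 2))
  have h2 := (integrableOn_image_iff_integrableOn_abs_deriv_smul measurableSet_Ioi hder hinj
    (fun z => Real.exp (-1 * z ^ 2))).1 (by
      rw [fs_image hA hB]
      exact (integrable_exp_neg_mul_sq one_pos).integrableOn)
  rw [fs_image hA hB, setIntegral_univ, integral_gaussian, div_one] at h1
  constructor
  · refine h2.congr_fun (fun x hx => ?_) measurableSet_Ioi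
    show |B / (2 * √x) + A / (2 * x * √x)| • Real.exp (-1 * (fs A B x) ^ 2) = _
    rw [hpos x hx, smul_eq_mul, neg_one_mul]
    rfl
  · rw [h1]
    refine setIntegral_congr_fun measurableSet_Ioi (fun x hx => ?_)
    show _ = |B / (2 * √x) + A / (2 * x * √x)| • Real.exp (-1 * (fs A B x) ^ 2)
    rw [hpos x hx, smul_eq_mul, neg_one_mul]
    rfl

theorem ph_cont (A B : ℝ) : ContinuousOn (ph A B) (Ioi 0) := by
  unfold ph fs
  have h : ∀ x ∈ Ioi (0 : ℝ), √x ≠ 0 := fun x hx => (Real.sqrt_pos.2 hx).ne'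
  refine Real.continuous_exp.comp_continuousOn ?_
  refine ContinuousOn.neg ?_
  refine ContinuousOn.pow ?_ 2
  refine ContinuousOn.sub ?_ ?_
  · exact continuousOn_const.mul Real.continuous_sqrt.continuousOn
  · exact continuousOn_const.div Real.continuous_sqrt.continuousOn h

theorem intX {A B : ℝ} (hA : 0 < A) (hB : 0 < B) :
    IntegrableOn (fun t => B / (2 * √t) * ph A B t) (Ioi 0) := by
  refine Integrable.mono' (total hA hB).1 ?_ ?_
  · refine ContinuousOn.aestronglyMeasurable ?_ measurableSet_Ioi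
    refine ContinuousOn.mul ?_ (ph_cont A B)
    refine continuousOn_const.div ?_ ?_
    · exact continuousOn_const.mul Real.continuous_sqrt.continuousOn
    · intro x hx
      have := Real.sqrt_pos.2 hx
      positivity
  · rw [ae_restrict_iff' measurableSet_Ioi]
    refine Eventually.of_forall fun x hx => ?_
    have hx' : (0 : ℝ) < x := hx
    have hp : 0 ≤ ph A B x := (Real.exp_pos _).le
    rw [Real.norm_of_nonneg (by positivity)]
    refine mul_le_mul_of_nonneg_right ?_ hp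
    have : 0 ≤ A / (2 * x * √x) := by positivity
    linarith

theorem intY {A B : ℝ} (hA : 0 < A) (hB : 0 < B) :
    IntegrableOn (fun t => A / (2 * t * √t) * ph A B t) (Ioi 0) := by
  have h := (total hA hB).1.sub (intX hA hB)
  refine h.congr (Eventually.of_forall fun x => ?_)
  simp only [Pi.sub_apply]
  ring

theorem swap {A B : ℝ} (hA : 0 < A) (hB : 0 < B) :
    ∫ t in Ioi (0 : ℝ), B / (2 * √t) * ph A B t = ∫ t in Ioi (0 : ℝ), A / (2 * t * √t) * ph A B t := by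
  set c := A / B with hc
  have hc0 : 0 < c := div_pos hA hB
  have hder : ∀ x ∈ Ioi (0 : ℝ), HasDerivWithinAt (fun s => c ^ 2 / s) (-(c ^ 2 / x ^ 2))
      (Ioi 0) x := by
    intro x hx
    have hx' : x ≠ 0 := ne_of_gt hx
    have h1 := (hasDerivAt_const x (c ^ 2)).div (hasDerivAt_id x) hx'
    refine (h1.congr_deriv ?_).hasDerivWithinAt
    simp
    ring
  have hinj : InjOn (fun s : ℝ => c ^ 2 / s) (Ioi 0) := by
    intro x hx y hy hxy
    have hx' : x ≠ 0 := ne_of_gt hx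
    have hy' : y ≠ 0 := ne_of_gt hy
    have h1 : c ^ 2 / x = c ^ 2 / y := hxy
    have h2 : c ^ 2 ≠ 0 := by positivity
    rw [div_eq_div_iff hx' hy'] at h1
    exact (mul_left_cancel₀ h2 h1).symm
  have himg : (fun s : ℝ => c ^ 2 / s) '' Ioi 0 = Ioi 0 := by
    ext y
    constructor
    · rintro ⟨x, hx, rfl⟩
      have hx' : (0 : ℝ) < x := hx
      show 0 < c ^ 2 / x
      positivity
    · intro hy
      have hy' : (0 : ℝ) < y := hy
      refine ⟨c ^ 2 / y, ?_, ?_⟩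
      · show 0 < c ^ 2 / y
        positivity
      · show c ^ 2 / (c ^ 2 / y) = y
        field_simp
  have h1 := integral_image_eq_integral_abs_deriv_smul measurableSet_Ioi hder hinj
    (fun t => B / (2 * √t) * ph A B t)
  rw [himg] at h1
  rw [h1]
  refine setIntegral_congr_fun measurableSet_Ioi (fun x hx => ?_)
  have hx' : (0 : ℝ) < x := hx
  have hsx : 0 < √x := Real.sqrt_pos.2 hx'
  show |-(c ^ 2 / x ^ 2)| • (B / (2 * √(c ^ 2 / x)) * ph A B (c ^ 2 / x)) =
    A / (2 * x * √x) * ph A B x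
  have h2 : √(c ^ 2 / x) = c / √x := by
    rw [Real.sqrt_div (sq_nonneg c), Real.sqrt_sq hc0.le]
  have h3 : ph A B (c ^ 2 / x) = ph A B x := by
    unfold ph fs
    rw [h2]
    congr 2
    have h4 : B * (c / √x) - A / (c / √x) = -(B * √x - A / √x) := by
      rw [hc]
      field_simp
      ring
    rw [h4, neg_sq]
  rw [h3, h2, abs_neg, abs_of_nonneg (by positivity), smul_eq_mul, ← mul_assoc]
  congr 1
  have h5 : x = √x ^ 2 := (Real.sq_sqrt hx'.le).symm
  have h6 : A = B * c := by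
    rw [hc]
    field_simp
  rw [h6]
  nth_rewrite 1 [h5]
  nth_rewrite 3 [h5]
  field_simp

theorem half {A B : ℝ} (hA : 0 < A) (hB : 0 < B) :
    ∫ t in Ioi (0 : ℝ), B / (2 * √t) * ph A B t = √π / 2 := by
  have h1 := (total hA hB).2
  have h2 : ∫ t in Ioi (0 : ℝ), (B / (2 * √t) + A / (2 * t * √t)) * ph A B t =
      (∫ t in Ioi (0 : ℝ), B / (2 * √t) * ph A B t) +
        ∫ t in Ioi (0 : ℝ), A / (2 * t * √t) * ph A B t := by
    rw [← integral_add (intX hA hB) (intY hA hB)]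
    congr 1
    ext t
    ring
  rw [h2, ← swap hA hB] at h1
  linarith

/-- the classical integral -/
theorem classical_int {A B : ℝ} (hA : 0 < A) (hB : 0 < B) :
    ∫ t in Ioi (0 : ℝ), (√t)⁻¹ * Real.exp (-(A ^ 2 / t + B ^ 2 * t)) =
      √π / B * Real.exp (-(2 * A * B)) := by
  have h1 := half hA hB
  have h2 : ∫ t in Ioi (0 : ℝ), B / (2 * √t) * ph A B t =
      ∫ t in Ioi (0 : ℝ), (B / 2 * Real.exp (2 * A * B)) *
        ((√t)⁻¹ * Real.exp (-(A ^ 2 / t + B ^ 2 * t))) := by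
    refine setIntegral_congr_fun measurableSet_Ioi (fun t ht => ?_)
    have ht' : (0 : ℝ) < t := ht
    have hst : 0 < √t := Real.sqrt_pos.2 ht'
    have h3 : ph A B t = Real.exp (2 * A * B) * Real.exp (-(A ^ 2 / t + B ^ 2 * t)) := by
      unfold ph fs
      rw [← Real.exp_add]
      congr 1
      have h4 : √t ^ 2 = t := Real.sq_sqrt ht'.le
      have h5 : (B * √t - A / √t) ^ 2 = B ^ 2 * √t ^ 2 - 2 * A * B + A ^ 2 / √t ^ 2 := by
        field_simp
        ring
      rw [h5, h4]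
      ring
    show B / (2 * √t) * ph A B t = _
    rw [h3]
    field_simp
  rw [h2, integral_const_mul] at h1
  have h6 : Real.exp (-(2 * A * B)) = (Real.exp (2 * A * B))⁻¹ := Real.exp_neg _
  have h7 := Real.exp_pos (2 * A * B)
  rw [h6]
  generalize (∫ t in Ioi (0 : ℝ), (√t)⁻¹ * Real.exp (-(A ^ 2 / t + B ^ 2 * t))) = J at h1 ⊢
  generalize Real.exp (2 * A * B) = E at h1 h7 ⊢
  have h8 : B * E * J = √π := by linarith
  rw [← h8]
  field_simp

/-- the classical integral for `A = 0` -/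
theorem classical_zero {B : ℝ} (hB : 0 < B) :
    ∫ t in Ioi (0 : ℝ), (√t)⁻¹ * Real.exp (-(B ^ 2 * t)) = √π / B := by
  have h := Real.integral_rpow_mul_exp_neg_mul_Ioi (a := 1 / 2) (r := B ^ 2) (by norm_num)
    (by positivity)
  rw [Real.Gamma_one_half_eq] at h
  have h1 : (1 / B ^ 2) ^ (1 / 2 : ℝ) = 1 / B := by
    rw [← Real.sqrt_eq_rpow, one_div, Real.sqrt_inv, Real.sqrt_sq hB.le, one_div]
  rw [h1] at h
  have h2 : √π / B = 1 / B * √π := by ring
  rw [h2, ← h]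
  refine setIntegral_congr_fun measurableSet_Ioi (fun t ht => ?_)
  have ht' : (0 : ℝ) < t := ht
  show (√t)⁻¹ * _ = t ^ (1 / 2 - 1 : ℝ) * _
  congr 1
  rw [Real.sqrt_eq_rpow, ← Real.rpow_neg ht'.le]
  norm_num

/-- the integrand, real part -/
def gg (μ u r t : ℝ) : ℝ := (4 * π * t)⁻¹ * Real.exp (-((u ^ 2 + r ^ 2) / (4 * t) + μ ^ 2 * t))

/-- the inner integral -/
def kk (μ u t : ℝ) : ℝ := (4 * π * t)⁻¹ * Real.exp (-(u ^ 2 / (4 * t) + μ ^ 2 * t))

theorem gg_eq (μ u r t : ℝ) : gg μ u r t = kk μ u t * Real.exp (-(1 / (4 * t)) * r ^ 2) := by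
  unfold gg kk
  rw [mul_assoc (4 * π * t)⁻¹, ← Real.exp_add]
  congr 2
  ring

theorem inner_int (μ p u : ℝ) {t : ℝ} (ht : 0 < t) :
    ∫ r : ℝ, ((gg μ u r t : ℝ) : ℂ) * pw p r =
      ((kk μ u t * √(4 * π * t) * Real.exp (-(p ^ 2 * t)) : ℝ) : ℂ) := by
  have hb : (0 : ℝ) < 1 / (4 * t) := by positivity
  have h1 := fourierIntegral_gaussian (b := ((1 / (4 * t) : ℝ) : ℂ)) (by rw [Complex.ofReal_re]; exact hb)
    (p : ℂ)
  have h2 : ∀ r : ℝ, ((gg μ u r t : ℝ) : ℂ) * pw p r = ((kk μ u t : ℝ) : ℂ) *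
      (Complex.exp (Complex.I * (p : ℂ) * r) * Complex.exp (-((1 / (4 * t) : ℝ) : ℂ) * r ^ 2)) := by
    intro r
    rw [gg_eq]
    unfold pw
    push_cast
    ring
  simp_rw [h2]
  rw [integral_const_mul, h1]
  have h3 : ((π : ℂ) / ((1 / (4 * t) : ℝ) : ℂ)) ^ (1 / 2 : ℂ) = ((√(4 * π * t) : ℝ) : ℂ) := by
    rw [Real.sqrt_eq_rpow, Complex.ofReal_cpow (by positivity)]
    congr 1
    · push_cast
      have : (t : ℂ) ≠ 0 := by exact_mod_cast ht.ne'
      field_simp
    · push_cast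
      ring
  have h4 : Complex.exp (-(p : ℂ) ^ 2 / (4 * ((1 / (4 * t) : ℝ) : ℂ))) =
      ((Real.exp (-(p ^ 2 * t)) : ℝ) : ℂ) := by
    rw [Complex.ofReal_exp]
    congr 1
    push_cast
    have : (t : ℂ) ≠ 0 := by exact_mod_cast ht.ne'
    field_simp
  rw [h3, h4]
  push_cast
  ring

theorem gg_meas (μ u : ℝ) : Measurable (fun z : ℝ × ℝ => gg μ u z.1 z.2) := by
  unfold gg
  fun_prop

theorem gg_nonneg (μ u r : ℝ) {t : ℝ} (ht : 0 < t) : 0 ≤ gg μ u r t := by
  unfold gg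
  positivity

theorem norm_pw (p r : ℝ) : ‖pw p r‖ = 1 := by
  unfold pw
  have : Complex.I * (p : ℂ) * (r : ℂ) = ((p * r : ℝ) : ℂ) * Complex.I := by
    push_cast
    ring
  rw [this, Complex.norm_exp_ofReal_mul_I]

theorem gg_int_r (μ u : ℝ) {t : ℝ} (ht : 0 < t) :
    Integrable (fun r => gg μ u r t) ∧ ∫ r : ℝ, gg μ u r t = kk μ u t * √(4 * π * t) := by
  have hb : (0 : ℝ) < 1 / (4 * t) := by positivity
  constructor
  · simp_rw [gg_eq]
    exact (integrable_exp_neg_mul_sq hb).const_mul _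
  · simp_rw [gg_eq]
    rw [integral_const_mul, integral_gaussian]
    congr 2
    field_simp

theorem kk_le (μ u : ℝ) {t : ℝ} (ht : 0 < t) :
    kk μ u t * √(4 * π * t) ≤ t ^ (-(1 / 2) : ℝ) * Real.exp (-μ ^ 2 * t ^ (1 : ℝ)) := by
  unfold kk
  have h1 : √(4 * π * t) ^ 2 = 4 * π * t := Real.sq_sqrt (by positivity)
  have h0 : 0 < √(4 * π * t) := Real.sqrt_pos.2 (by positivity)
  have h2 : (4 * π * t)⁻¹ * √(4 * π * t) = (√(4 * π * t))⁻¹ := by
    rw [← h1]
    field_simp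
    rw [Real.sqrt_sq h0.le]
  have h3 : (√(4 * π * t))⁻¹ ≤ t ^ (-(1 / 2) : ℝ) := by
    rw [Real.rpow_neg ht.le, ← Real.sqrt_eq_rpow]
    apply inv_anti₀ (Real.sqrt_pos.2 ht)
    apply Real.sqrt_le_sqrt
    nlinarith [Real.pi_gt_three]
  have h4 : Real.exp (-(u ^ 2 / (4 * t) + μ ^ 2 * t)) ≤ Real.exp (-μ ^ 2 * t ^ (1 : ℝ)) := by
    rw [Real.exp_le_exp, Real.rpow_one]
    have : 0 ≤ u ^ 2 / (4 * t) := by positivity
    linarith
  calc (4 * π * t)⁻¹ * Real.exp (-(u ^ 2 / (4 * t) + μ ^ 2 * t)) * √(4 * π * t)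
      = ((4 * π * t)⁻¹ * √(4 * π * t)) * Real.exp (-(u ^ 2 / (4 * t) + μ ^ 2 * t)) := by ring
    _ = (√(4 * π * t))⁻¹ * Real.exp (-(u ^ 2 / (4 * t) + μ ^ 2 * t)) := by rw [h2]
    _ ≤ _ := mul_le_mul h3 h4 (Real.exp_pos _).le (by positivity)

theorem kk_meas (μ u : ℝ) : Measurable (fun t => kk μ u t * √(4 * π * t)) := by
  unfold kk
  fun_prop

theorem kk_integrable {μ : ℝ} (hμ : 0 < μ) (u : ℝ) :
    IntegrableOn (fun t => kk μ u t * √(4 * π * t)) (Ioi 0) := by
  have h := integrableOn_rpow_mul_exp_neg_mul_rpow (p := 1) (s := -(1 / 2)) (b := μ ^ 2)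
    (by norm_num) (by norm_num) (by positivity)
  refine Integrable.mono' h (kk_meas μ u).aestronglyMeasurable ?_
  rw [ae_restrict_iff' measurableSet_Ioi]
  refine Eventually.of_forall fun t ht => ?_
  have ht' : (0 : ℝ) < t := ht
  rw [Real.norm_of_nonneg (by unfold kk; positivity)]
  exact kk_le μ u ht'

theorem big_integrable {μ : ℝ} (hμ : 0 < μ) (p u : ℝ) :
    Integrable (Function.uncurry fun (r t : ℝ) => ((gg μ u r t : ℝ) : ℂ) * pw p r)
      (volume.prod (volume.restrict (Ioi 0))) := by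
  have hpw : Measurable (fun z : ℝ × ℝ => pw p z.1) := by
    unfold pw
    fun_prop
  have hm : Measurable (fun z : ℝ × ℝ => ((gg μ u z.1 z.2 : ℝ) : ℂ) * pw p z.1) :=
    (Complex.measurable_ofReal.comp (gg_meas μ u)).mul hpw
  show Integrable (fun z : ℝ × ℝ => ((gg μ u z.1 z.2 : ℝ) : ℂ) * pw p z.1)
    (volume.prod (volume.restrict (Ioi 0)))
  rw [integrable_prod_iff' hm.aestronglyMeasurable]
  have hnorm : ∀ r t : ℝ, 0 < t → ‖((gg μ u r t : ℝ) : ℂ) * pw p r‖ = gg μ u r t := by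
    intro r t ht
    rw [norm_mul, norm_pw, mul_one, Complex.norm_real, Real.norm_of_nonneg (gg_nonneg μ u r ht)]
  constructor
  · rw [ae_restrict_iff' measurableSet_Ioi]
    refine Eventually.of_forall fun t ht => ?_
    have ht' : (0 : ℝ) < t := ht
    refine Integrable.mono' (gg_int_r μ u ht').1 ?_ ?_
    · exact (hm.comp measurable_prodMk_right).aestronglyMeasurable
    · refine Eventually.of_forall fun r => ?_
      exact (hnorm r t ht').le
  · refine (kk_integrable hμ u).congr_fun (fun t ht => ?_) measurableSet_Ioi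
    have ht' : (0 : ℝ) < t := ht
    show kk μ u t * √(4 * π * t) = ∫ r : ℝ, ‖((gg μ u r t : ℝ) : ℂ) * pw p r‖
    rw [← (gg_int_r μ u ht').2]
    refine integral_congr_ae (Eventually.of_forall fun r => ?_)
    exact (hnorm r t ht').symm

/-- the Fourier integral as a one-dimensional integral -/
theorem main_int {μ : ℝ} (hμ : 0 < μ) (p u : ℝ) :
    ∫ r : ℝ, ((Gk μ (√(u ^ 2 + r ^ 2)) : ℝ) : ℂ) * pw p r =
      ((∫ t in Ioi (0 : ℝ), kk μ u t * √(4 * π * t) * Real.exp (-(p ^ 2 * t)) : ℝ) : ℂ) := by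
  have h1 : ∀ r : ℝ, ((Gk μ (√(u ^ 2 + r ^ 2)) : ℝ) : ℂ) * pw p r =
      ∫ t in Ioi (0 : ℝ), ((gg μ u r t : ℝ) : ℂ) * pw p r := by
    intro r
    rw [integral_mul_const]
    congr 1
    rw [integral_complex_ofReal]
    congr 1
    unfold Gk gg
    rw [Real.sq_sqrt (by positivity)]
  simp_rw [h1]
  rw [integral_integral_swap (big_integrable hμ p u), ← integral_complex_ofReal]
  refine setIntegral_congr_fun measurableSet_Ioi (fun t ht => ?_)
  exact inner_int μ p u ht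

theorem integrand_eq (μ p u : ℝ) {t : ℝ} (ht : 0 < t) :
    kk μ u t * √(4 * π * t) * Real.exp (-(p ^ 2 * t)) =
      1 / (2 * √π) * ((√t)⁻¹ * Real.exp (-((|u| / 2) ^ 2 / t + √(p ^ 2 + μ ^ 2) ^ 2 * t))) := by
  have hq : √(p ^ 2 + μ ^ 2) ^ 2 = p ^ 2 + μ ^ 2 := Real.sq_sqrt (by positivity)
  have h1 : √(4 * π * t) = 2 * √π * √t := by
    rw [Real.sqrt_mul (by positivity), Real.sqrt_mul (by norm_num)]
    congr 2
    rw [show (4 : ℝ) = 2 ^ 2 by norm_num, Real.sqrt_sq (by norm_num)]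
  have h2 : Real.exp (-((|u| / 2) ^ 2 / t + √(p ^ 2 + μ ^ 2) ^ 2 * t)) =
      Real.exp (-(u ^ 2 / (4 * t) + μ ^ 2 * t)) * Real.exp (-(p ^ 2 * t)) := by
    rw [hq, ← Real.exp_add, div_pow, sq_abs]
    congr 1
    field_simp
    ring
  rw [h2, h1]
  unfold kk
  have h3 : √t ^ 2 = t := Real.sq_sqrt ht.le
  have h4 : √π ^ 2 = π := Real.sq_sqrt Real.pi_pos.le
  have h5 : 0 < √t := Real.sqrt_pos.2 ht
  have h6 : 0 < √π := Real.sqrt_pos.2 Real.pi_pos
  have h7 : (4 * π * t)⁻¹ * (2 * √π * √t) = 1 / (2 * √π) * (√t)⁻¹ := by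
    rw [← h3, ← h4]
    rw [Real.sqrt_sq h5.le, Real.sqrt_sq h6.le]
    field_simp
    norm_num
  calc (4 * π * t)⁻¹ * Real.exp (-(u ^ 2 / (4 * t) + μ ^ 2 * t)) * (2 * √π * √t) *
        Real.exp (-(p ^ 2 * t))
      = ((4 * π * t)⁻¹ * (2 * √π * √t)) * (Real.exp (-(u ^ 2 / (4 * t) + μ ^ 2 * t)) *
        Real.exp (-(p ^ 2 * t))) := by ring
    _ = _ := by rw [h7]; ring

theorem t_FT : S_FT := by
  constructor
  · intro μ p hμ
    have h := main_int hμ p 0
    have hq : 0 < √(p ^ 2 + μ ^ 2) := Real.sqrt_pos.2 (by positivity)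
    have h1 : ∀ r : ℝ, √((0 : ℝ) ^ 2 + r ^ 2) = |r| := by
      intro r
      rw [zero_pow two_ne_zero, zero_add, Real.sqrt_sq_eq_abs]
    simp_rw [h1] at h
    rw [h]
    congr 1
    have h2 : ∫ t in Ioi (0 : ℝ), kk μ 0 t * √(4 * π * t) * Real.exp (-(p ^ 2 * t)) =
        ∫ t in Ioi (0 : ℝ), 1 / (2 * √π) * ((√t)⁻¹ * Real.exp (-(√(p ^ 2 + μ ^ 2) ^ 2 * t))) := by
      refine setIntegral_congr_fun measurableSet_Ioi (fun t ht => ?_)
      have ht' : (0 : ℝ) < t := ht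
      show kk μ 0 t * √(4 * π * t) * Real.exp (-(p ^ 2 * t)) = _
      rw [integrand_eq μ p 0 ht', abs_zero, zero_div, zero_pow two_ne_zero, zero_div, zero_add]
    rw [h2, integral_const_mul, classical_zero hq]
    have h6 : 0 < √π := Real.sqrt_pos.2 Real.pi_pos
    field_simp
  · intro μ p u hμ hu
    rw [main_int hμ p u]
    congr 1
    have hq : 0 < √(p ^ 2 + μ ^ 2) := Real.sqrt_pos.2 (by positivity)
    have hA : 0 < |u| / 2 := by positivity
    have h2 : ∫ t in Ioi (0 : ℝ), kk μ u t * √(4 * π * t) * Real.exp (-(p ^ 2 * t)) =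
        ∫ t in Ioi (0 : ℝ), 1 / (2 * √π) * ((√t)⁻¹ *
          Real.exp (-((|u| / 2) ^ 2 / t + √(p ^ 2 + μ ^ 2) ^ 2 * t))) := by
      refine setIntegral_congr_fun measurableSet_Ioi (fun t ht => ?_)
      exact integrand_eq μ p u ht
    rw [h2, integral_const_mul, classical_int hA hq]
    have h6 : 0 < √π := Real.sqrt_pos.2 Real.pi_pos
    have h7 : 2 * (|u| / 2) * √(p ^ 2 + μ ^ 2) = √(p ^ 2 + μ ^ 2) * |u| := by ring
    rw [h7]
    field_simp

end

end Pool.Agent.E8helper55.LC
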